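import Pool.Agent.R311.BS.WF

set_option autoImplicit false

/-!
# Moments of zeta on the critical line with almost periodic weights
-/

namespace Pool.Agent.U899.MB

open Finset MeasureTheory Filter Topology Complex
open Pool.Agent.R311.BS

/-- trigonometric polynomials with arbitrary real frequencies -/
def Trig (P : ℝ → ℂ) : Prop := ∃ (Λ : Finset ℝ) (a : ℝ → ℂ), ∀ t : ℝ,
  P t = ∑ l ∈ Λ, a l * Complex.exp (((l * t : ℝ) : ℂ) * I)

/-- uniformly almost periodic functions: uniform limits of trigonometric polynomials -/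
def AP (f : ℝ → ℂ) : Prop := ∀ ε : ℝ, 0 < ε → ∃ P : ℝ → ℂ, Trig P ∧ ∀ t : ℝ, ‖f t - P t‖ ≤ ε

lemma Trig.cont {P : ℝ → ℂ} (h : Trig P) : Continuous P := by
  obtain ⟨Λ, a, h⟩ := h
  rw [show P = fun t => ∑ l ∈ Λ, a l * Complex.exp (((l * t : ℝ) : ℂ) * I) from funext h]
  fun_prop

lemma AP.cont {f : ℝ → ℂ} (h : AP f) : Continuous f := by
  rw [Metric.continuous_iff]
  intro s ε hε
  obtain ⟨P, hP, hfP⟩ := h (ε / 4) (by positivity)
  obtain ⟨δ, hδ, h1⟩ := Metric.continuous_iff.1 hP.cont s (ε / 4) (by positivity)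
  refine ⟨δ, hδ, fun t ht => ?_⟩
  have h2 := h1 t ht
  rw [dist_eq_norm] at h2 ⊢
  have h3 : f t - f s = (f t - P t) + (P t - P s) + (P s - f s) := by ring
  rw [h3]
  have h4 := hfP s
  rw [norm_sub_rev] at h4
  refine (norm_add₃_le).trans_lt ?_
  linarith [hfP t]

lemma exp_close (x : ℝ) : ‖Complex.exp (((2 * Real.pi * x : ℝ) : ℂ) * I) - 1‖ ≤
    2 * Real.pi * |x - round x| := by
  have e : Complex.exp (((2 * Real.pi * x : ℝ) : ℂ) * I) =
      Complex.exp (I * ((2 * Real.pi * (x - round x) : ℝ) : ℂ)) := by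
    have e1 : ((2 * Real.pi * x : ℝ) : ℂ) * I =
        I * ((2 * Real.pi * (x - round x) : ℝ) : ℂ) + (round x : ℤ) * (2 * Real.pi * I) := by
      push_cast
      ring
    rw [e1, Complex.exp_add, Complex.exp_int_mul_two_pi_mul_I, mul_one]
  rw [e]
  refine (Real.norm_exp_I_mul_ofReal_sub_one_le (x := 2 * Real.pi * (x - round x))).trans (le_of_eq ?_)
  rw [Real.norm_eq_abs, abs_mul, abs_of_pos (by positivity)]

lemma trig_close {P : ℝ → ℂ} (hP : Trig P) {ε : ℝ} (hε : 0 < ε) :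
    ∃ (Λ : Finset ℝ) (δ : ℝ), 0 < δ ∧ ∀ s t : ℝ,
      (∀ l ∈ Λ, |l / (2 * Real.pi) * (t - s) - round (l / (2 * Real.pi) * (t - s))| < δ) →
      ‖P t - P s‖ ≤ ε := by
  obtain ⟨Λ, a, h⟩ := hP
  obtain ⟨S, hS⟩ : ∃ S : ℝ, S = ∑ l ∈ Λ, ‖a l‖ := ⟨_, rfl⟩
  have hS0 : 0 ≤ S := by rw [hS]; positivity
  have hpi : (0:ℝ) < Real.pi := Real.pi_pos
  refine ⟨Λ, ε / (2 * Real.pi * (S + 1)), by positivity, fun s t hl => ?_⟩
  rw [h t, h s, ← Finset.sum_sub_distrib]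
  have h1 : ∀ l ∈ Λ, ‖a l * Complex.exp (((l * t : ℝ) : ℂ) * I) - a l * Complex.exp (((l * s : ℝ) : ℂ) * I)‖ ≤
      ‖a l‖ * (ε / (S + 1)) := by
    intro l hlm
    have e1 : a l * Complex.exp (((l * t : ℝ) : ℂ) * I) - a l * Complex.exp (((l * s : ℝ) : ℂ) * I) =
        a l * Complex.exp (((l * s : ℝ) : ℂ) * I) *
          (Complex.exp (((2 * Real.pi * (l / (2 * Real.pi) * (t - s)) : ℝ) : ℂ) * I) - 1) := by
      have e2 : (2 * Real.pi * (l / (2 * Real.pi) * (t - s)) : ℝ) = l * t - l * s := by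
        field_simp
      rw [e2, mul_sub, mul_one, mul_assoc, ← Complex.exp_add]
      congr 3
      push_cast
      ring
    rw [e1, norm_mul, norm_mul, Complex.norm_exp_ofReal_mul_I, mul_one]
    refine mul_le_mul_of_nonneg_left ((exp_close _).trans ?_) (norm_nonneg _)
    have h2 := (hl l hlm).le
    calc 2 * Real.pi * |l / (2 * Real.pi) * (t - s) - round (l / (2 * Real.pi) * (t - s))|
        ≤ 2 * Real.pi * (ε / (2 * Real.pi * (S + 1))) := by gcongr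
      _ = ε / (S + 1) := by field_simp
  refine (norm_sum_le _ _).trans ((Finset.sum_le_sum h1).trans ?_)
  rw [← Finset.sum_mul, ← hS]
  rw [mul_div_assoc', div_le_iff₀ (by positivity)]
  nlinarith

lemma ap_close {f : ℝ → ℂ} (hf : AP f) {ε : ℝ} (hε : 0 < ε) :
    ∃ (Λ : Finset ℝ) (δ : ℝ), 0 < δ ∧ ∀ s t : ℝ,
      (∀ l ∈ Λ, |l / (2 * Real.pi) * (t - s) - round (l / (2 * Real.pi) * (t - s))| < δ) →
      ‖f t - f s‖ ≤ ε := by
  obtain ⟨P, hP, hfP⟩ := hf (ε / 4) (by positivity)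
  obtain ⟨Λ, δ, hδ, h⟩ := trig_close hP (ε := ε / 4) (by positivity)
  refine ⟨Λ, δ, hδ, fun s t hl => ?_⟩
  have h3 : f t - f s = (f t - P t) + (P t - P s) + (P s - f s) := by ring
  rw [h3]
  have h4 := hfP s
  rw [norm_sub_rev] at h4
  refine (norm_add₃_le).trans ?_
  linarith [hfP t, h s t hl]

lemma exists_pos_le' {m : ℕ} (f : Fin m → ℝ) (hf : ∀ i, 0 < f i) : ∃ κ : ℝ, 0 < κ ∧ ∀ i, κ ≤ f i := by
  induction m with
  | zero => exact ⟨1, one_pos, fun i => i.elim0⟩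
  | succ m ih =>
    obtain ⟨κ, hκ, h⟩ := ih (fun i => f i.succ) fun i => hf _
    refine ⟨min κ (f 0), lt_min hκ (hf 0), fun i => ?_⟩
    refine Fin.cases (min_le_right _ _) (fun j => (min_le_left _ _).trans (h j)) i

/-- **Moments on almost periodic sets.** -/
theorem ap_sets (q : ℕ) (hq : 2 ≤ q) {m : ℕ} (f : Fin m → ℝ → ℂ) (hf : ∀ i, AP (f i))
    (U : Set (Fin m → ℂ)) (hU : IsOpen U) (s : ℝ) (hs : (fun i => f i s) ∈ U) :
    ∃ c : ℝ, 0 < c ∧ ∃ η : ℝ, 0 < η ∧ ∀ᶠ T : ℝ in atTop, ∀ H : ℝ, T ^ (1 - η) ≤ H → H ≤ T →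
      ∀ t₁ : ℝ, c * H * Real.log T ^ ((q:ℝ) ^ 2 / 4) ≤
        ∫ t in {t | t ∈ Set.Icc T (T + H) ∧ (fun i => f i (t - t₁)) ∈ U},
          ‖riemannZeta (1 / 2 + t * I)‖ ^ q := by
  classical
  obtain ⟨ε, hε, hball⟩ := Metric.isOpen_iff.1 hU _ hs
  choose Λ δ hδ hcl using fun i => ap_close (hf i) (ε := ε / 2) (by positivity)
  obtain ⟨δ₀, hδ₀, hle⟩ := exists_pos_le' δ hδ
  obtain ⟨S, hS⟩ : ∃ S : Finset ℝ, S = Finset.univ.biUnion Λ := ⟨_, rfl⟩
  obtain ⟨α, hα⟩ : ∃ α : Fin S.card → ℝ, α = fun j => ((S.equivFin.symm j : S) : ℝ) / (2 * Real.pi) :=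
    ⟨_, rfl⟩
  have hsur : ∀ i, ∀ l ∈ Λ i, ∃ j, α j = l / (2 * Real.pi) := by
    intro i l hl
    have : l ∈ S := by rw [hS, Finset.mem_biUnion]; exact ⟨i, Finset.mem_univ _, hl⟩
    refine ⟨S.equivFin ⟨l, this⟩, ?_⟩
    rw [hα]
    simp
  obtain ⟨c, hc, η, hη, h⟩ := Pool.Agent.R311.BS.main q hq α δ₀ hδ₀
  refine ⟨c, hc, η, hη, ?_⟩
  filter_upwards [h] with T hT H hH1 hH2 t₁
  refine (hT H hH1 hH2 (t₁ + s)).trans ?_
  refine setIntegral_mono_set ?_ ?_ ?_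
  · exact (zl_cont.norm.pow q).integrableOn_Icc.mono_set fun t ht => ht.1
  · exact Eventually.of_forall fun t => by simp only [Pi.zero_apply]; positivity
  · refine Eventually.of_forall fun t ht => ?_
    refine ⟨ht.1, hball ?_⟩
    rw [Metric.mem_ball, dist_pi_lt_iff hε]
    intro i
    rw [dist_eq_norm]
    refine (hcl i s (t - t₁) fun l hl => ?_).trans_lt (by linarith)
    obtain ⟨j, hj⟩ := hsur i l hl
    have h1 := ht.2 j
    rw [hj, show t - (t₁ + s) = t - t₁ - s by ring] at h1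
    exact h1.trans_le (hle i)

/-- **Moments with almost periodic weights.** -/
theorem ap_weights (q : ℕ) (hq : 2 ≤ q) (w : ℝ → ℝ) (hw : AP fun t => (w t : ℂ)) (hw0 : ∀ t, 0 ≤ w t)
    (s : ℝ) (hs : 0 < w s) :
    ∃ c : ℝ, 0 < c ∧ ∃ η : ℝ, 0 < η ∧ ∀ᶠ T : ℝ in atTop, ∀ H : ℝ, T ^ (1 - η) ≤ H → H ≤ T →
      ∀ t₁ : ℝ, c * H * Real.log T ^ ((q:ℝ) ^ 2 / 4) ≤
        ∫ t in T..T + H, w (t - t₁) * ‖riemannZeta (1 / 2 + t * I)‖ ^ q := by
  have hwc : Continuous w := by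
    have h := Complex.continuous_re.comp hw.cont
    exact h
  obtain ⟨c, hc, η, hη, h⟩ := ap_sets q hq (m := 1) (fun _ t => (w t : ℂ)) (fun _ => hw)
    {z | w s / 2 < (z 0).re} (isOpen_lt continuous_const (by fun_prop)) s
    (by simp only [Set.mem_ofPred_eq, Complex.ofReal_re]; linarith)
  refine ⟨w s / 2 * c, by positivity, η, hη, ?_⟩
  filter_upwards [h, eventually_ge_atTop 1] with T hT hT1 H hH1 hH2 t₁
  have hT0 : 0 < T := by linarith
  have hH0 : 0 ≤ H := (Real.rpow_nonneg hT0.le _).trans hH1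
  have h1 := hT H hH1 hH2 t₁
  rw [intervalIntegral.integral_of_le (by linarith), ← integral_Icc_eq_integral_Ioc]
  have hcont : Continuous fun t : ℝ => w (t - t₁) * ‖riemannZeta (1 / 2 + t * I)‖ ^ q :=
    (hwc.comp (by fun_prop)).mul (zl_cont.norm.pow q)
  calc w s / 2 * c * H * Real.log T ^ ((q:ℝ) ^ 2 / 4)
      = w s / 2 * (c * H * Real.log T ^ ((q:ℝ) ^ 2 / 4)) := by ring
    _ ≤ w s / 2 * ∫ t in {t | t ∈ Set.Icc T (T + H) ∧ (fun _ : Fin 1 => ((w (t - t₁) : ℝ) : ℂ)) ∈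
          {z : Fin 1 → ℂ | w s / 2 < (z 0).re}}, ‖riemannZeta (1 / 2 + t * I)‖ ^ q :=
        mul_le_mul_of_nonneg_left h1 (by positivity)
    _ = ∫ t in {t | t ∈ Set.Icc T (T + H) ∧ (fun _ : Fin 1 => ((w (t - t₁) : ℝ) : ℂ)) ∈
          {z : Fin 1 → ℂ | w s / 2 < (z 0).re}}, w s / 2 * ‖riemannZeta (1 / 2 + t * I)‖ ^ q := by
        rw [integral_const_mul]
    _ ≤ ∫ t in {t | t ∈ Set.Icc T (T + H) ∧ (fun _ : Fin 1 => ((w (t - t₁) : ℝ) : ℂ)) ∈
          {z : Fin 1 → ℂ | w s / 2 < (z 0).re}}, w (t - t₁) * ‖riemannZeta (1 / 2 + t * I)‖ ^ q := by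
        have hm : MeasurableSet {t | t ∈ Set.Icc T (T + H) ∧ (fun _ : Fin 1 => ((w (t - t₁) : ℝ) : ℂ)) ∈
            {z : Fin 1 → ℂ | w s / 2 < (z 0).re}} := by
          have e : {t | t ∈ Set.Icc T (T + H) ∧ (fun _ : Fin 1 => ((w (t - t₁) : ℝ) : ℂ)) ∈
              {z : Fin 1 → ℂ | w s / 2 < (z 0).re}} = Set.Icc T (T + H) ∩ {t | w s / 2 < w (t - t₁)} := by
            ext t
            simp
          rw [e]
          exact measurableSet_Icc.inter (isOpen_lt continuous_const (hwc.comp (by fun_prop))).measurableSet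
        refine setIntegral_mono_on ?_ ?_ hm ?_
        · exact (continuous_const.mul (zl_cont.norm.pow q)).integrableOn_Icc.mono_set fun t ht => ht.1
        · exact hcont.integrableOn_Icc.mono_set fun t ht => ht.1
        · intro t ht
          have h2 : w s / 2 < w (t - t₁) := by simpa using ht.2
          gcongr
    _ ≤ _ := by
        refine setIntegral_mono_set hcont.integrableOn_Icc ?_ ?_
        · refine Eventually.of_forall fun t => ?_
          simp only [Pi.zero_apply]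
          exact mul_nonneg (hw0 _) (by positivity)
        · exact Eventually.of_forall fun t ht => ht.1

end Pool.Agent.U899.MB
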