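import Pool.Agent.R311.BS.WF

set_option autoImplicit false

/-!
# Moments of zeta on the critical line, given the values `p^(-it)` at small primes
-/

namespace Pool.Agent.U899.MB

open Finset MeasureTheory Filter Topology Complex
open Pool.Agent.R311.BS

/-- completely multiplicative and unimodular on the positive integers -/
structure CM (χ : ℕ → ℂ) : Prop where
  one : χ 1 = 1
  mul : ∀ m n : ℕ, 1 ≤ m → 1 ≤ n → χ (m * n) = χ m * χ n
  nrm : ∀ n : ℕ, 1 ≤ n → ‖χ n‖ = 1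

/-! ### independence of the logarithms of primes -/

lemma fac_prod {r : ℕ} (p : Fin r → ℕ) (hp : ∀ j, (p j).Prime) (hinj : Function.Injective p)
    (a : Fin r → ℕ) (k : Fin r) : (∏ j, p j ^ a j).factorization (p k) = a k := by
  classical
  rw [Nat.factorization_prod (fun j _ => pow_ne_zero _ (hp j).ne_zero)]
  rw [Finsupp.finsetSum_apply]
  rw [Finset.sum_eq_single k]
  · rw [(hp k).factorization_pow]
    simp
  · intro j _ hj
    rw [(hp j).factorization_pow]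
    rw [Finsupp.single_apply, if_neg]
    exact fun h => hj (hinj h)
  · intro h
    exact absurd (Finset.mem_univ k) h

lemma logs_indep {r : ℕ} (p : Fin r → ℕ) (hp : ∀ j, (p j).Prime) (hinj : Function.Injective p)
    (m : Fin r → ℤ) (h : th (fun j => Real.log (p j) / (2 * Real.pi)) m = 0) : m = 0 := by
  have hpi : (0:ℝ) < Real.pi := Real.pi_pos
  have h1 : ∑ j, (m j : ℝ) * Real.log (p j) = 0 := by
    have e : th (fun j => Real.log (p j) / (2 * Real.pi)) m = ∑ j, (m j : ℝ) * Real.log (p j) := by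
      unfold th
      rw [Finset.mul_sum]
      refine Finset.sum_congr rfl fun j _ => ?_
      field_simp
    rw [← e, h]
  have hpos : ∀ a : Fin r → ℕ, 0 < ∏ j, p j ^ a j := fun a =>
    Finset.prod_pos fun j _ => pow_pos (hp j).pos _
  have hlog : ∀ a : Fin r → ℕ, Real.log ((∏ j, p j ^ a j : ℕ) : ℝ) = ∑ j, (a j : ℝ) * Real.log (p j) := by
    intro a
    push_cast
    rw [Real.log_prod (fun j _ => by
      have := (hp j).pos
      positivity)]
    refine Finset.sum_congr rfl fun j _ => ?_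
    rw [Real.log_pow]
  have h2 : Real.log ((∏ j, p j ^ (m j).toNat : ℕ) : ℝ) =
      Real.log ((∏ j, p j ^ (-(m j)).toNat : ℕ) : ℝ) := by
    rw [hlog, hlog, ← sub_eq_zero, ← Finset.sum_sub_distrib, ← h1]
    refine Finset.sum_congr rfl fun j _ => ?_
    rw [← sub_mul]
    congr 1
    have h3 : ((m j).toNat : ℤ) - ((-(m j)).toNat : ℤ) = m j := by omega
    have h4 : (((m j).toNat : ℤ) : ℝ) - (((-(m j)).toNat : ℤ) : ℝ) = (m j : ℝ) := by exact_mod_cast h3
    exact_mod_cast h4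
  have h3 : (∏ j, p j ^ (m j).toNat) = ∏ j, p j ^ (-(m j)).toNat := by
    have h4 := Real.log_injOn_pos (by simp only [Set.mem_Ioi]; exact_mod_cast hpos _)
      (by simp only [Set.mem_Ioi]; exact_mod_cast hpos _) h2
    exact_mod_cast h4
  funext k
  have h4 := congrArg (fun n => n.factorization (p k)) h3
  simp only [fac_prod p hp hinj] at h4
  simp only [Pi.zero_apply]
  omega

/-! ### completely multiplicative functions -/

lemma npow_norm {n : ℕ} (hn : 1 ≤ n) (t : ℝ) : ‖(n : ℂ) ^ (-((t : ℂ) * I))‖ = 1 := by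
  rw [Complex.norm_natCast_cpow_of_pos (by omega)]
  simp

lemma close_of_primes {χ : ℕ → ℂ} (hχ : CM χ) {t κ : ℝ} (hκ : 0 ≤ κ) {N : ℕ}
    (h : ∀ p : ℕ, p.Prime → p ≤ N → ‖(p : ℂ) ^ (-((t : ℂ) * I)) - χ p‖ ≤ κ) (n : ℕ) :
    1 ≤ n → n ≤ N → ‖(n : ℂ) ^ (-((t : ℂ) * I)) - χ n‖ ≤ ((n : ℝ) - 1) * κ := by
  induction n using Nat.recOnMul with
  | zero => intro h0; omega
  | one =>
    intro _ _
    rw [hχ.one]
    simp
  | prime p hp =>
    intro _ hN
    refine (h p hp hN).trans ?_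
    have : (2:ℝ) ≤ p := by exact_mod_cast hp.two_le
    nlinarith
  | mul a b iha ihb =>
    intro h1 hN
    have ha : 1 ≤ a := Nat.one_le_iff_ne_zero.2 (by rintro rfl; simp at h1)
    have hb : 1 ≤ b := Nat.one_le_iff_ne_zero.2 (by rintro rfl; simp at h1)
    have haN : a ≤ N := (Nat.le_mul_of_pos_right a hb).trans hN
    have hbN : b ≤ N := (Nat.le_mul_of_pos_left b ha).trans hN
    have e : ((a * b : ℕ) : ℂ) ^ (-((t : ℂ) * I)) - χ (a * b) =
        ((a : ℂ) ^ (-((t : ℂ) * I)) - χ a) * (b : ℂ) ^ (-((t : ℂ) * I)) +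
          χ a * ((b : ℂ) ^ (-((t : ℂ) * I)) - χ b) := by
      rw [hχ.mul a b ha hb, Nat.cast_mul, Complex.natCast_mul_natCast_cpow]
      ring
    rw [e]
    refine (norm_add_le _ _).trans ?_
    rw [norm_mul, norm_mul, npow_norm hb, hχ.nrm a ha, mul_one, one_mul]
    have h2 := iha ha haN
    have h3 := ihb hb hbN
    have h4 : (1:ℝ) ≤ a := by exact_mod_cast ha
    have h5 : (1:ℝ) ≤ b := by exact_mod_cast hb
    push_cast
    nlinarith [mul_nonneg (mul_nonneg (sub_nonneg.2 h4) (sub_nonneg.2 h5)) hκ]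

/-! ### Dirichlet series -/

lemma term_shift (a : ℕ → ℂ) (σ t : ℝ) (n : ℕ) :
    LSeries.term a ((σ : ℂ) + t * I) n = LSeries.term a σ n * (n : ℂ) ^ (-((t : ℂ) * I)) := by
  rcases Nat.eq_zero_or_pos n with rfl | hn
  · simp [LSeries.term]
  · have hn0 : (n : ℂ) ≠ 0 := by exact_mod_cast hn.ne'
    rw [LSeries.term_of_ne_zero hn.ne', LSeries.term_of_ne_zero hn.ne', Complex.cpow_add _ _ hn0,
      Complex.cpow_neg]
    have h1 : (n : ℂ) ^ (σ : ℂ) ≠ 0 := by
      rw [Ne, Complex.cpow_eq_zero_iff]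
      tauto
    have h2 : (n : ℂ) ^ ((t : ℂ) * I) ≠ 0 := by
      rw [Ne, Complex.cpow_eq_zero_iff]
      tauto
    field_simp

lemma term_char (a χ : ℕ → ℂ) (σ : ℝ) (n : ℕ) :
    LSeries.term (fun n => χ n * a n) σ n = χ n * LSeries.term a σ n := by
  rcases Nat.eq_zero_or_pos n with rfl | hn
  · simp [LSeries.term]
  · rw [LSeries.term_of_ne_zero hn.ne', LSeries.term_of_ne_zero hn.ne']
    ring

/-- the values of an absolutely convergent Dirichlet series are determined by the small primes -/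
lemma series_close (a : ℕ → ℂ) (σ : ℝ) (ha : LSeriesSummable a σ) {ε : ℝ} (hε : 0 < ε) :
    ∃ (N : ℕ) (κ : ℝ), 0 < κ ∧ ∀ (χ : ℕ → ℂ), CM χ → ∀ t : ℝ,
      (∀ p : ℕ, p.Prime → p ≤ N → ‖(p : ℂ) ^ (-((t : ℂ) * I)) - χ p‖ ≤ κ) →
      ‖LSeries a ((σ : ℂ) + t * I) - LSeries (fun n => χ n * a n) σ‖ < ε := by
  obtain ⟨b, hb⟩ : ∃ b : ℕ → ℂ, b = LSeries.term a σ := ⟨_, rfl⟩
  have hbs : Summable b := by rw [hb]; exact ha
  have hbn : Summable fun n => ‖b n‖ := hbs.norm
  have hb0 : b 0 = 0 := by rw [hb]; simp [LSeries.term]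
  obtain ⟨N, hN⟩ : ∃ N : ℕ, ∑' n, ‖b (n + N)‖ < ε / 4 := by
    have h := tendsto_sum_nat_add fun n => ‖b n‖
    exact (h.eventually (gt_mem_nhds (by positivity))).exists
  obtain ⟨S, hS⟩ : ∃ S : ℝ, S = ∑ n ∈ range N, ‖b n‖ := ⟨_, rfl⟩
  have hS0 : 0 ≤ S := by rw [hS]; positivity
  refine ⟨N, ε / (4 * (N + 1) * (S + 1)), by positivity, fun χ hχ t hp => ?_⟩
  obtain ⟨κ, hκ⟩ : ∃ κ : ℝ, κ = ε / (4 * (N + 1) * (S + 1)) := ⟨_, rfl⟩
  rw [← hκ] at hp
  have hκ0 : 0 < κ := by rw [hκ]; positivity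
  have hc := fun n => close_of_primes hχ hκ0.le hp n
  obtain ⟨F, hF⟩ : ∃ F : ℕ → ℂ, F = fun n => b n * ((n : ℂ) ^ (-((t : ℂ) * I)) - χ n) := ⟨_, rfl⟩
  have hF2 : ∀ n, ‖F n‖ ≤ 2 * ‖b n‖ := by
    intro n
    rcases Nat.eq_zero_or_pos n with rfl | hn
    · rw [hF]; simp [hb0]
    · rw [hF]
      simp only [norm_mul]
      rw [mul_comm]
      refine mul_le_mul_of_nonneg_right ?_ (norm_nonneg _)
      refine (norm_sub_le _ _).trans ?_
      rw [npow_norm hn, hχ.nrm n hn]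
      norm_num
  have hFs : Summable fun n => ‖F n‖ :=
    Summable.of_nonneg_of_le (fun n => norm_nonneg _) hF2 (hbn.mul_left 2)
  have hs1 : Summable fun n => b n * (n : ℂ) ^ (-((t : ℂ) * I)) := by
    refine Summable.of_norm (Summable.of_nonneg_of_le (fun n => norm_nonneg _) (fun n => ?_) hbn)
    rcases Nat.eq_zero_or_pos n with rfl | hn
    · simp [hb0]
    · rw [norm_mul, npow_norm hn, mul_one]
  have hs2 : Summable fun n => χ n * b n := by
    refine Summable.of_norm (Summable.of_nonneg_of_le (fun n => norm_nonneg _) (fun n => ?_) hbn)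
    rcases Nat.eq_zero_or_pos n with rfl | hn
    · simp [hb0]
    · rw [norm_mul, hχ.nrm n hn, one_mul]
  have e : LSeries a ((σ : ℂ) + t * I) - LSeries (fun n => χ n * a n) σ = ∑' n, F n := by
    unfold LSeries
    have e1 : ∀ n, LSeries.term a ((σ : ℂ) + t * I) n = b n * (n : ℂ) ^ (-((t : ℂ) * I)) := fun n => by
      rw [term_shift, hb]
    have e2 : ∀ n, LSeries.term (fun n => χ n * a n) σ n = χ n * b n := fun n => by
      rw [term_char, hb]
    simp_rw [e1, e2]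
    rw [← hs1.tsum_sub hs2]
    refine tsum_congr fun n => ?_
    rw [hF]
    ring
  rw [e]
  refine (norm_tsum_le_tsum_norm hFs).trans_lt ?_
  rw [← hFs.sum_add_tsum_nat_add N]
  have h1 : ∑ n ∈ range N, ‖F n‖ ≤ ε / 4 := by
    have h2 : ∑ n ∈ range N, ‖F n‖ ≤ ∑ n ∈ range N, ‖b n‖ * ((N + 1 : ℝ) * κ) := by
      refine Finset.sum_le_sum fun n hn => ?_
      rw [Finset.mem_range] at hn
      rcases Nat.eq_zero_or_pos n with rfl | hn0
      · rw [hF]; simp [hb0]
      · rw [hF]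
        simp only [norm_mul]
        refine mul_le_mul_of_nonneg_left ((hc n hn0 hn.le).trans ?_) (norm_nonneg _)
        refine mul_le_mul_of_nonneg_right ?_ hκ0.le
        have : (n : ℝ) ≤ N := by exact_mod_cast hn.le
        linarith
    refine h2.trans ?_
    rw [← Finset.sum_mul, ← hS, hκ]
    have h3 : S * ((N + 1 : ℝ) * (ε / (4 * (N + 1) * (S + 1)))) = (S / (S + 1)) * (ε / 4) := by
      field_simp
    rw [h3]
    have h4 : S / (S + 1) ≤ 1 := by
      rw [div_le_one (by positivity)]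
      linarith
    nlinarith
  have h2 : ∑' n, ‖F (n + N)‖ ≤ 2 * ∑' n, ‖b (n + N)‖ := by
    rw [← tsum_mul_left]
    refine Summable.tsum_le_tsum (fun n => hF2 (n + N)) ((summable_nat_add_iff N).2 hFs)
      (((summable_nat_add_iff N).2 hbn).mul_left 2)
  linarith

lemma exists_pos_le {m : ℕ} (f : Fin m → ℝ) (hf : ∀ i, 0 < f i) : ∃ κ : ℝ, 0 < κ ∧ ∀ i, κ ≤ f i := by
  induction m with
  | zero => exact ⟨1, one_pos, fun i => i.elim0⟩
  | succ m ih =>
    obtain ⟨κ, hκ, h⟩ := ih (fun i => f i.succ) fun i => hf _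
    refine ⟨min κ (f 0), lt_min hκ (hf 0), fun i => ?_⟩
    refine Fin.cases (min_le_right _ _) (fun j => (min_le_left _ _).trans (h j)) i

/-- **Moments given the values of Dirichlet series.** -/
theorem given_series (q : ℕ) (hq : 2 ≤ q) {m : ℕ} (a : Fin m → ℕ → ℂ) (σ : Fin m → ℝ)
    (ha : ∀ i, LSeriesSummable (a i) (σ i)) {ε : ℝ} (hε : 0 < ε) :
    ∃ c : ℝ, 0 < c ∧ ∃ η : ℝ, 0 < η ∧ ∀ᶠ T : ℝ in atTop, ∀ H : ℝ, T ^ (1 - η) ≤ H → H ≤ T →
      ∀ χ : ℕ → ℂ, CM χ → c * H * Real.log T ^ ((q:ℝ) ^ 2 / 4) ≤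
        ∫ t in {t | t ∈ Set.Icc T (T + H) ∧
            ∀ i, ‖LSeries (a i) ((σ i : ℂ) + t * I) - LSeries (fun n => χ n * a i n) (σ i)‖ < ε},
          ‖riemannZeta (1 / 2 + t * I)‖ ^ q := by
  classical
  choose N κ hκ hcl using fun i => series_close (a i) (σ i) (ha i) hε
  obtain ⟨κ₀, hκ₀, hle⟩ := exists_pos_le κ hκ
  obtain ⟨M, hM⟩ : ∃ M : ℕ, M = ∑ i, N i := ⟨_, rfl⟩
  have hNM : ∀ i, N i ≤ M := fun i => by
    rw [hM]
    exact Finset.single_le_sum (f := N) (fun _ _ => Nat.zero_le _) (Finset.mem_univ i)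
  -- the primes up to M
  obtain ⟨S, hS⟩ : ∃ S : Finset ℕ, S = (range (M + 1)).filter Nat.Prime := ⟨_, rfl⟩
  obtain ⟨p, hp⟩ : ∃ p : Fin S.card → ℕ, p = fun j => ((S.equivFin.symm j : S) : ℕ) := ⟨_, rfl⟩
  have hpS : ∀ j, p j ∈ S := fun j => by rw [hp]; exact (S.equivFin.symm j).2
  have hpp : ∀ j, (p j).Prime := fun j => by
    have := hpS j
    rw [hS, Finset.mem_filter] at this
    exact this.2
  have hinj : Function.Injective p := by
    rw [hp]
    intro i j h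
    exact S.equivFin.symm.injective (Subtype.ext h)
  have hsur : ∀ l : ℕ, l.Prime → l ≤ M → ∃ j, p j = l := by
    intro l hl hlM
    have : l ∈ S := by rw [hS, Finset.mem_filter, Finset.mem_range]; exact ⟨by omega, hl⟩
    refine ⟨S.equivFin ⟨l, this⟩, ?_⟩
    rw [hp]
    simp
  have hpi : (0:ℝ) < Real.pi := Real.pi_pos
  obtain ⟨δ, hδ⟩ : ∃ δ : ℝ, δ = min (1 / 4) (κ₀ / (4 * Real.pi)) := ⟨_, rfl⟩
  have hδ0 : 0 < δ := by rw [hδ]; exact lt_min (by norm_num) (by positivity)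
  have hδ1 : δ ≤ 1 / 4 := by rw [hδ]; exact min_le_left _ _
  have hδ2 : 4 * Real.pi * δ ≤ κ₀ := by
    have : δ ≤ κ₀ / (4 * Real.pi) := by rw [hδ]; exact min_le_right _ _
    rw [le_div_iff₀ (by positivity)] at this
    linarith
  obtain ⟨c, hc, η, hη, h⟩ := indep_bound q hq (fun j => Real.log (p j) / (2 * Real.pi))
    (logs_indep p hpp hinj) hδ0 hδ1
  refine ⟨c, hc, η, hη, ?_⟩
  filter_upwards [h] with T hT H hH1 hH2 χ hχ
  have h1 := hT H hH1 hH2 (fun j => -(Complex.arg (χ (p j))) / (2 * Real.pi))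
  rw [show ((q:ℝ) / 2) ^ 2 = (q:ℝ) ^ 2 / 4 by ring] at h1
  refine h1.trans ?_
  refine setIntegral_mono_set ?_ ?_ ?_
  · exact (zl_cont.norm.pow q).integrableOn_Icc.mono_set fun t ht => ht.1
  · exact Eventually.of_forall fun t => by simp only [Pi.zero_apply]; positivity
  · refine Eventually.of_forall fun t ht => ?_
    refine ⟨ht.1, fun i => ?_⟩
    refine hcl i χ hχ t fun l hl hlN => ?_
    obtain ⟨j, hj⟩ := hsur l hl (hlN.trans (hNM i))
    obtain ⟨n, hn⟩ := ht.2 j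
    rw [← hj]
    have hpc : ((p j : ℕ) : ℂ) ≠ 0 := by exact_mod_cast (hpp j).ne_zero
    obtain ⟨u, hu⟩ : ∃ u : ℝ, u = Real.log (p j) / (2 * Real.pi) * t -
        -(Complex.arg (χ (p j))) / (2 * Real.pi) - n := ⟨_, rfl⟩
    have hu' : |u| < 2 * δ := by rw [hu]; exact hn
    have e1 : ((p j : ℕ) : ℂ) ^ (-((t : ℂ) * I)) =
        χ (p j) * Complex.exp (I * ((-(2 * Real.pi * u) : ℝ) : ℂ)) := by
      rw [Complex.cpow_def_of_ne_zero hpc]
      have e2 : Complex.log ((p j : ℕ) : ℂ) = ((Real.log (p j) : ℝ) : ℂ) := by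
        rw [← Complex.natCast_log]
      have e3 : χ (p j) = Complex.exp ((Complex.arg (χ (p j)) : ℂ) * I) := by
        have h4 := Complex.norm_mul_exp_arg_mul_I (χ (p j))
        rw [hχ.nrm _ (hpp j).one_lt.le, Complex.ofReal_one, one_mul] at h4
        exact h4.symm
      rw [e2]
      conv_rhs => rw [e3]
      rw [← Complex.exp_add]
      have e4 : ((Real.log (p j) : ℝ) : ℂ) * (-((t : ℂ) * I)) =
          (Complex.arg (χ (p j)) : ℂ) * I + I * ((-(2 * Real.pi * u) : ℝ) : ℂ) -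
            (n : ℤ) * (2 * Real.pi * I) := by
        rw [hu]
        push_cast
        field_simp
        ring
      rw [e4, Complex.exp_sub, Complex.exp_int_mul_two_pi_mul_I, div_one]
    rw [e1]
    have e5 : χ (p j) * Complex.exp (I * ((-(2 * Real.pi * u) : ℝ) : ℂ)) - χ (p j) =
        χ (p j) * (Complex.exp (I * ((-(2 * Real.pi * u) : ℝ) : ℂ)) - 1) := by ring
    rw [e5, norm_mul, hχ.nrm _ (hpp j).one_lt.le, one_mul]
    refine (Real.norm_exp_I_mul_ofReal_sub_one_le (x := -(2 * Real.pi * u))).trans ?_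
    rw [Real.norm_eq_abs, abs_neg, abs_mul, abs_of_pos (by positivity)]
    refine le_trans ?_ (hle i)
    refine le_trans ?_ hδ2
    nlinarith

end Pool.Agent.U899.MB
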